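import Pool.Agent.helper97.NA.SpecE

/-!
# MP_baa4d7_al, THEOREM NA, block E, row XDC (helper5), after `Pool/Agent/helper55/L5/DC5.lean`

OPEN (docstring of `XDC_stmt`, `Pool/Agent/helper97/NA/SpecE.lean`): `E_B / E[B]` cyclic, generated by `s` of order prime to `p`: all the alternating sums (over all `d`) for all subgroups `U` vanish.
-/

set_option autoImplicit false

namespace Pool.Agent.NAB

open Pool.Agent.helper58.DC Pool.Agent.DI Pool.Agent.GR Pool.Agent.OB Pool.Agent.DR Pool.Agent.FI Pool.Agent.FI3 Pool.Agent.FI4 Pool.Agent.FI4I Pool.Agent.FI4E Pool.Agent.LE Pool.Agent.L5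

/-- a subgroup between `K` and `V` generated modulo `K` by a power of `s` -/
theorem XDC_gen {A : Type} [Group A] (K L V : Subgroup A) (s : A) (hs : ∀ a ∈ L, ∃ k : ℤ, s ^ k * a ∈ K)
    (hK : K ≤ V) (hL : V ≤ L) : ∃ j : ℤ, Subgroup.zpowers (s ^ j) ⊔ K = V := by
  let H : AddSubgroup ℤ :=
    { carrier := {k | s ^ k ∈ V}
      zero_mem' := by
        change s ^ (0 : ℤ) ∈ V
        rw [zpow_zero]
        exact V.one_mem
      add_mem' := fun {a b} ha hb => by
        change s ^ (a + b) ∈ V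
        rw [zpow_add]
        exact V.mul_mem ha hb
      neg_mem' := fun {a} ha => by
        change s ^ (-a) ∈ V
        rw [zpow_neg]
        exact V.inv_mem ha }
  obtain ⟨j, hj⟩ := Int.subgroup_cyclic H
  have hjH : s ^ j ∈ V := by
    have h1 : j ∈ H := by
      rw [hj]
      exact AddSubgroup.subset_closure rfl
    exact h1
  refine ⟨j, le_antisymm (sup_le ?_ hK) ?_⟩
  · rw [Subgroup.zpowers_le]
    exact hjH
  · intro v hv
    obtain ⟨k, hk⟩ := hs v (hL hv)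
    have h1 : s ^ k ∈ V := by
      have h2 : s ^ k = s ^ k * v * v⁻¹ := by group
      rw [h2]
      exact V.mul_mem (hK hk) (V.inv_mem hv)
    have h3 : k ∈ H := h1
    rw [hj, AddSubgroup.mem_closure_singleton] at h3
    obtain ⟨m, hm⟩ := h3
    have h4 : v = (s ^ j) ^ (-m) * (s ^ k * v) := by
      rw [← zpow_mul, ← mul_assoc, ← zpow_add, ← hm, smul_eq_mul]
      have h5 : j * -m + m * j = 0 := by ring
      rw [h5, zpow_zero, one_mul]
    rw [h4]
    exact Subgroup.mul_mem_sup (Subgroup.zpow_mem_zpowers _ _) hk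

/-- only finitely many `d` matter -/
theorem XDC_fin (hB2 : B2_stmt) {G E A : Type} [Group G] [Group E] [Group A] [Finite G] [Finite E]
    (X : Extension G E A) (p : ℕ) (M : Ideal (integralClosure ℤ ℂ)) (χ : G → ℂ) :
    ∃ S : Finset ℤ, ∀ d : ℤ, d ∉ S → ∀ U : Subgroup A, altSum X p M χ d U = 0 := by
  have hfin : {d : ℤ | ∃ C : Finset (Subgroup G), ∃ ψ ∈ IrrOn (nrm C), Defect p (nrm C) ψ d}.Finite := by
    have h1 : {d : ℤ | ∃ C : Finset (Subgroup G), ∃ ψ ∈ IrrOn (nrm C), Defect p (nrm C) ψ d} =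
        ⋃ C : Finset (Subgroup G), ⋃ ψ ∈ IrrOn (nrm C), {d : ℤ | Defect p (nrm C) ψ d} := by
      ext d
      simp only [Set.mem_iUnion, Set.mem_ofPred_eq, exists_prop]
    rw [h1]
    refine Set.finite_iUnion fun C => Set.Finite.biUnion (hB2 G (nrm C)).1 fun ψ _ => ?_
    refine Set.Subsingleton.finite ?_
    rintro d ⟨n, hn, rfl⟩ d' ⟨n', hn', rfl⟩
    have h2 : n = n' := by exact_mod_cast hn.symm.trans hn'
    rw [h2]
  refine ⟨hfin.toFinset, fun d hd U => ?_⟩
  have hkC : ∀ C : Finset (Subgroup G), kC X p M χ d U C = 0 := by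
    intro C
    unfold kC
    have : IsEmpty {ψ : G → ℂ // ψ ∈ IrrOn (nrm C) ∧ Defect p (nrm C) ψ d ∧ Induces M ψ χ ∧
        (X.stab C ψ).map X.proj = U} := by
      refine ⟨fun ψ => hd ?_⟩
      rw [Set.Finite.mem_toFinset]
      exact ⟨C, ψ.1, ψ.2.1, ψ.2.2.1⟩
    exact Nat.card_of_isEmpty
  unfold altSum
  rw [finsum_congr fun c => by rw [hkC, Nat.cast_zero, mul_zero]]
  exact finsum_zero

theorem XDC (hXDZ : XDZ_stmt) (hZRO : Pool.Agent.BQ.ZRO_stmt) (hDWN : Pool.Agent.BQ.DWN_stmt)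
    (hEJ5 : EJ5_stmt) (hB2 : B2_stmt) : XDC_stmt := by
  classical
  intro p e m M hM c v hcv hc G E A _ _ _ _ _ X hOp χ hχ z x hU s hps hJs hs
  have : Fact p.Prime := ⟨hM.pr⟩
  have : Finite A := Finite.of_surjective X.proj X.proj_surjective
  have : Fintype (Subgroup A) := Fintype.ofFinite _
  obtain ⟨S, hS⟩ := XDC_fin hB2 X p M χ
  have hsum : ∀ U : Subgroup A, ∑ᶠ d : ℤ, altSum X p M χ d U = ∑ d ∈ S, altSum X p M χ d U := by
    intro U
    refine finsum_eq_sum_of_support_subset _ fun d hd => ?_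
    by_contra h
    exact hd (hS d h U)
  refine hDWN A (fun U => ∑ᶠ d : ℤ, altSum X p M χ d U) (Pool.Agent.BQ.AI X M χ)
    (Pool.Agent.BQ.AB X M χ) ?_ ?_
  · intro V hV
    change ∑ᶠ d : ℤ, altSum X p M χ d V = 0
    rw [finsum_congr fun d => (hZRO G E A X p M hM.max hM.mem χ hχ d V hV).2]
    exact finsum_zero
  · intro V hK hL
    obtain ⟨j, hj⟩ := XDC_gen _ _ V s hs hK hL
    refine ⟨Subgroup.zpowers (s ^ j), hj, ?_⟩
    change ∑ᶠ W : {W : Subgroup A // Subgroup.zpowers (s ^ j) ≤ W}, ∑ᶠ d : ℤ, altSum X p M χ d W.1 = 0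
    have hdvd : orderOf (s ^ j) ∣ orderOf s :=
      orderOf_dvd_of_mem_zpowers (Subgroup.zpow_mem_zpowers s j)
    obtain ⟨h2, h3⟩ := hEJ5 p (orderOf s) (orderOf (s ^ j)) (v + 1) hM.pr (orderOf_pos _) (orderOf_pos _) hps
      (fun l _ hl => hl.trans hdvd) hJs
    have h4 := hXDZ p e m M hM c v hcv hc G E A X hOp χ hχ z x hU (s ^ j) h2 h3
    unfold dadeSum at h4
    have h5 : ∀ d : ℤ, ∑ᶠ U : {U : Subgroup A // s ^ j ∈ U}, altSum X p M χ d U.1 =
        ∑ U : {U : Subgroup A // s ^ j ∈ U}, altSum X p M χ d U.1 := fun d => finsum_eq_sum_of_fintype _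
    rw [finsum_congr h5] at h4
    have h6 : ∑ᶠ d : ℤ, ∑ U : {U : Subgroup A // s ^ j ∈ U}, altSum X p M χ d U.1 =
        ∑ d ∈ S, ∑ U : {U : Subgroup A // s ^ j ∈ U}, altSum X p M χ d U.1 := by
      refine finsum_eq_sum_of_support_subset _ fun d hd => ?_
      by_contra h
      exact hd (Finset.sum_eq_zero fun U _ => hS d h U.1)
    rw [h6, Finset.sum_comm] at h4
    rw [finsum_congr fun W : {W : Subgroup A // Subgroup.zpowers (s ^ j) ≤ W} => hsum W.1]
    have h7 : ∑ᶠ W : {W : Subgroup A // Subgroup.zpowers (s ^ j) ≤ W}, ∑ d ∈ S, altSum X p M χ d W.1 =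
        ∑ᶠ U : {U : Subgroup A // s ^ j ∈ U}, ∑ d ∈ S, altSum X p M χ d U.1 :=
      finsum_comp_equiv (Equiv.subtypeEquivRight fun W : Subgroup A =>
        Subgroup.zpowers_le (g := s ^ j) (H := W))
        (f := fun U : {U : Subgroup A // s ^ j ∈ U} => ∑ d ∈ S, altSum X p M χ d U.1)
    rw [h7, finsum_eq_sum_of_fintype]
    exact h4

end Pool.Agent.NAB
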